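import Pool.Agent.Helper5.RD.Stm

/-! # Project RD, package C -/

set_option autoImplicit false

namespace Pool.Agent.Helper13.RD

open Pool.Agent.Helper5.RD Finset Classical

/-- the product of `f` primes below `q`, and of `f` primes from `q` on -/
theorem prod_lt {R I' : Finset ℕ} (hc : R.card = I'.card) (hlt : ∀ r ∈ R, ∀ p ∈ I', r < p)
    (hne : I'.Nonempty) : ∏ r ∈ R, r < ∏ p ∈ I', p := by
  obtain ⟨q, hq, hmin⟩ := Finset.exists_min_image I' id hne
  have hRne : R.Nonempty := by
    rw [← Finset.card_pos, hc, Finset.card_pos]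
    exact hne
  obtain ⟨r0, hr0⟩ := hRne
  have hq0 : 0 < q := (Nat.zero_le r0).trans_lt (hlt r0 hr0 q hq)
  calc ∏ r ∈ R, r ≤ (q - 1) ^ R.card :=
        Finset.prod_le_pow_card _ _ _ fun r hr => by have := hlt r hr q hq; omega
    _ < q ^ R.card := Nat.pow_lt_pow_left (by omega) (by
        rw [hc]
        exact (Finset.card_pos.2 hne).ne')
    _ = q ^ I'.card := by rw [hc]
    _ ≤ ∏ p ∈ I', p := Finset.pow_card_le_prod _ _ _ fun p hp => hmin p hp

theorem inj_core {t t' : ℕ} {R R' I' : Finset ℕ} (ht : t ≠ 0) (ht' : t' ≠ 0)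
    (hI : ∀ p ∈ I', p.Prime) (hlt : ∀ r : ℕ, r.Prime → r ∣ t → ∀ p ∈ I', r < p)
    (hlt' : ∀ r : ℕ, r.Prime → r ∣ t' → ∀ p ∈ I', r < p)
    (hR : R ⊆ t.primeFactors) (hR' : R' ⊆ t'.primeFactors) (hc : R.card = I'.card)
    (hc' : R'.card = I'.card) (h1 : t / ∏ r ∈ R, r = t' / ∏ r ∈ R', r)
    (h2 : ∀ p ∈ I', t % p = t' % p) : t = t' ∧ R = R' := by
  have hprR : ∀ r ∈ R, r.Prime := fun r hr => Nat.prime_of_mem_primeFactors (hR hr)
  have hprR' : ∀ r ∈ R', r.Prime := fun r hr => Nat.prime_of_mem_primeFactors (hR' hr)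
  have hdR : ∏ r ∈ R, r ∣ t :=
    (Finset.prod_dvd_prod_of_subset _ _ _ hR).trans (Nat.prod_primeFactors_dvd t)
  have hdR' : ∏ r ∈ R', r ∣ t' :=
    (Finset.prod_dvd_prod_of_subset _ _ _ hR').trans (Nat.prod_primeFactors_dvd t')
  obtain ⟨m, hm⟩ := hdR
  obtain ⟨m', hm'⟩ := hdR'
  have hP0 : 0 < ∏ r ∈ R, r := Finset.prod_pos fun r hr => (hprR r hr).pos
  have hP0' : 0 < ∏ r ∈ R', r := Finset.prod_pos fun r hr => (hprR' r hr).pos
  have hmm : m = m' := by
    rw [hm, hm', Nat.mul_div_cancel_left _ hP0, Nat.mul_div_cancel_left _ hP0'] at h1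
    exact h1
  subst hmm
  have hPP : ∏ r ∈ R, r = ∏ r ∈ R', r := by
    rcases I'.eq_empty_or_nonempty with hE | hne
    · rw [hE, Finset.card_empty, Finset.card_eq_zero] at hc hc'
      rw [hc, hc']
    · have hmod : ∀ p ∈ I', ∏ r ∈ R, r ≡ ∏ r ∈ R', r [MOD p] := by
        intro p hp
        have hcop : Nat.Coprime p m := by
          rw [Nat.Prime.coprime_iff_not_dvd (hI p hp)]
          intro hd
          have hd2 : p ∣ t := by rw [hm]; exact Dvd.dvd.mul_left hd _
          exact lt_irrefl _ (hlt p (hI p hp) hd2 p hp)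
        have h3 : (∏ r ∈ R, r) * m ≡ (∏ r ∈ R', r) * m [MOD p] := by
          rw [← hm, ← hm']
          exact h2 p hp
        exact Nat.ModEq.cancel_right_of_coprime hcop h3
      have hmod2 : ∏ r ∈ R, r ≡ ∏ r ∈ R', r [MOD ∏ p ∈ I', p] := by
        rw [Nat.modEq_iff_dvd]
        push_cast
        refine Finset.prod_dvd_of_coprime ?_ ?_
        · intro p hp q hq hpq
          exact Nat.isCoprime_iff_coprime.2 ((Nat.coprime_primes (hI p hp) (hI q hq)).2 hpq)
        · intro p hp
          have := (Nat.modEq_iff_dvd).1 (hmod p hp)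
          push_cast at this
          exact this
      refine Nat.ModEq.eq_of_lt_of_lt hmod2 ?_ ?_
      · exact prod_lt hc (fun r hr p hp => hlt r (hprR r hr)
          (Nat.dvd_of_mem_primeFactors (hR hr)) p hp) hne
      · exact prod_lt hc' (fun r hr p hp => hlt' r (hprR' r hr)
          (Nat.dvd_of_mem_primeFactors (hR' hr)) p hp) hne
  refine ⟨by rw [hm, hm', hPP], ?_⟩
  rw [← Nat.primeFactors_prod hprR, ← Nat.primeFactors_prod hprR', hPP]

/-- Package C. -/
theorem p_C : S_C := by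
  intro E0 hE0 hdiv I hI hlt Z K hZ F k f
  set S := E0.filter (fun t => k ≤ t.primeFactors.card ∧
    F ≤ (I.filter (fun p => t % p ∈ Z p)).card) with hS
  have hSE : S ⊆ E0 := Finset.filter_subset _ _
  -- the pairs for a fixed set of primes
  have key : ∀ I' ∈ Finset.powersetCard f I,
      ∑ t ∈ S, (if (∀ p ∈ I', t % p ∈ Z p) then t.primeFactors.card.choose f else 0) ≤
        K ^ f * E0.card := by
    intro I' hI'
    obtain ⟨hI'I, hI'c⟩ := Finset.mem_powersetCard.1 hI'
    rw [← Finset.sum_filter]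
    have h1 : ∑ t ∈ S.filter (fun t => ∀ p ∈ I', t % p ∈ Z p), t.primeFactors.card.choose f =
        ((S.filter (fun t => ∀ p ∈ I', t % p ∈ Z p)).sigma
          fun t => Finset.powersetCard f t.primeFactors).card := by
      rw [Finset.card_sigma]
      exact Finset.sum_congr rfl fun t _ => (Finset.card_powersetCard _ _).symm
    rw [h1]
    have h2 : ((S.filter (fun t => ∀ p ∈ I', t % p ∈ Z p)).sigma
          fun t => Finset.powersetCard f t.primeFactors).card ≤ ((I'.pi Z) ×ˢ E0).card := by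
      refine Finset.card_le_card_of_injOn
        (fun x : (_ : ℕ) × Finset ℕ => ((fun p (_ : p ∈ I') => x.1 % p, x.1 / ∏ r ∈ x.2, r) :
          (∀ p ∈ I', ℕ) × ℕ)) ?_ ?_
      · rintro ⟨t, R⟩ hx
        obtain ⟨htS, hR⟩ := Finset.mem_sigma.1 hx
        obtain ⟨htS, htZ⟩ := Finset.mem_filter.1 htS
        obtain ⟨hR, hRc⟩ := Finset.mem_powersetCard.1 hR
        simp only [Finset.coe_product, Set.mem_prod, Finset.mem_coe, Finset.mem_pi]
        refine ⟨fun p hp => htZ p hp, hdiv t (hSE htS) _ (Nat.div_dvd_of_dvd ?_)⟩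
        exact (Finset.prod_dvd_prod_of_subset _ _ _ hR).trans (Nat.prod_primeFactors_dvd t)
      · rintro ⟨t, R⟩ hx ⟨t', R'⟩ hx' heq
        obtain ⟨htS, hR⟩ := Finset.mem_sigma.1 hx
        obtain ⟨htS, htZ⟩ := Finset.mem_filter.1 htS
        obtain ⟨hR, hRc⟩ := Finset.mem_powersetCard.1 hR
        obtain ⟨htS', hR'⟩ := Finset.mem_sigma.1 hx'
        obtain ⟨htS', htZ'⟩ := Finset.mem_filter.1 htS'
        obtain ⟨hR', hRc'⟩ := Finset.mem_powersetCard.1 hR'
        simp only [Prod.mk.injEq] at heq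
        obtain ⟨h3, h4⟩ := heq
        obtain ⟨h5, h6⟩ := inj_core (hE0 t (hSE htS)) (hE0 t' (hSE htS'))
          (fun p hp => hI p (hI'I hp)) (fun r hr hrt p hp => hlt t (hSE htS) r hr hrt p (hI'I hp))
          (fun r hr hrt p hp => hlt t' (hSE htS') r hr hrt p (hI'I hp)) hR hR'
          (hRc.trans hI'c.symm) (hRc'.trans hI'c.symm) h4
          (fun p hp => congrFun (congrFun h3 p) hp)
        subst h5
        subst h6
        rfl
    refine h2.trans ?_
    rw [Finset.card_product, Finset.card_pi]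
    refine Nat.mul_le_mul_right _ ?_
    rw [← hI'c]
    exact Finset.prod_le_pow_card _ _ _ fun p hp => hZ p (hI'I hp)
  calc F.choose f * k.choose f * S.card = ∑ _t ∈ S, F.choose f * k.choose f := by
        rw [Finset.sum_const, smul_eq_mul, mul_comm]
    _ ≤ ∑ t ∈ S, ∑ I' ∈ Finset.powersetCard f I,
          (if (∀ p ∈ I', t % p ∈ Z p) then t.primeFactors.card.choose f else 0) := by
        refine Finset.sum_le_sum fun t ht => ?_
        obtain ⟨h1, h2⟩ := (Finset.mem_filter.1 ht).2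
        rw [← Finset.sum_filter, Finset.sum_const, smul_eq_mul]
        have h3 : (Finset.powersetCard f I).filter (fun I' => ∀ p ∈ I', t % p ∈ Z p) =
            Finset.powersetCard f (I.filter (fun p => t % p ∈ Z p)) := by
          ext I'
          simp only [Finset.mem_filter, Finset.mem_powersetCard, Finset.subset_iff]
          constructor
          · rintro ⟨⟨h3, h4⟩, h5⟩
            exact ⟨fun p hp => ⟨h3 hp, h5 p hp⟩, h4⟩
          · rintro ⟨h3, h4⟩
            exact ⟨⟨fun p hp => (h3 hp).1, h4⟩, fun p hp => (h3 hp).2⟩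
        rw [h3, Finset.card_powersetCard]
        exact Nat.mul_le_mul (Nat.choose_le_choose f h2) (Nat.choose_le_choose f h1)
    _ = ∑ I' ∈ Finset.powersetCard f I, ∑ t ∈ S,
          (if (∀ p ∈ I', t % p ∈ Z p) then t.primeFactors.card.choose f else 0) :=
        Finset.sum_comm
    _ ≤ ∑ _I' ∈ Finset.powersetCard f I, K ^ f * E0.card := Finset.sum_le_sum key
    _ = K ^ f * I.card.choose f * E0.card := by
        rw [Finset.sum_const, Finset.card_powersetCard, smul_eq_mul]
        ring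

end Pool.Agent.Helper13.RD
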