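import Pool.Agent.Helper5.RD.Stm

/-! # Project RD, package D1 -/

set_option autoImplicit false

namespace Pool.Agent.Helper13.RD

open Pool.Agent.Helper5.RD Finset Classical

theorem mem_cls {Q : ℕ} {X : Finset ℤ} {t y : ℤ} : y ∈ cls Q X t ↔ y ∈ X ∧ (Q : ℤ) ∣ y - t := by
  unfold cls
  rw [Finset.mem_filter]

theorem cls_congr {Q : ℕ} {X : Finset ℤ} {x x' : ℤ} (h : (Q : ℤ) ∣ x - x') :
    cls Q X x = cls Q X x' := by
  ext y
  rw [mem_cls, mem_cls]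
  refine and_congr_right fun _ => ⟨fun h1 => ?_, fun h1 => ?_⟩
  · have := dvd_add h1 h
    rwa [sub_add_sub_cancel] at this
  · have := dvd_sub h1 h
    rwa [sub_sub_sub_cancel_right] at this

theorem self_mem {Q : ℕ} {X : Finset ℤ} {x : ℤ} (h : x ∈ X) : x ∈ cls Q X x := by
  rw [mem_cls]
  exact ⟨h, by rw [sub_self]; exact dvd_zero _⟩

theorem cls_sub {Q : ℕ} {X : Finset ℤ} {x : ℤ} : cls Q X x ⊆ X := Finset.filter_subset _ _

theorem fst_light {p K : ℕ} {X : Finset ℤ} {x : ℤ} (h : ∃ J, light p K X x J) :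
    light p K X x (fst p K X x) := Nat.sInf_mem (s := {J | light p K X x J}) h

theorem fst_le {p K : ℕ} {X : Finset ℤ} {x : ℤ} {J : ℕ} (h : light p K X x J) :
    fst p K X x ≤ J := Nat.sInf_le (s := {J | light p K X x J}) h

theorem star {p K : ℕ} {X : Finset ℤ} {x x' : ℤ} (h : ∃ J, light p K X x J)
    (hle : fst p K X x ≤ fst p K X x') (hd : ((p ^ fst p K X x : ℕ) : ℤ) ∣ x - x') :
    fst p K X x' = fst p K X x := by
  refine le_antisymm (fst_le ?_) hle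
  have h1 := fst_light h
  unfold light at h1 ⊢
  rw [← cls_congr hd]
  exact h1

theorem star2 {p K : ℕ} {X : Finset ℤ} {x x' : ℤ} (h : ∃ J, light p K X x J)
    (h' : ∃ J, light p K X x' J)
    (hd : ((p ^ min (fst p K X x) (fst p K X x') : ℕ) : ℤ) ∣ x - x') :
    fst p K X x = fst p K X x' := by
  rcases le_total (fst p K X x) (fst p K X x') with hle | hle
  · rw [min_eq_left hle] at hd
    exact (star h hle hd).symm
  · rw [min_eq_right hle, ← dvd_neg, neg_sub] at hd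
    exact star h' hle hd

theorem cell_eq {p K : ℕ} {X : Finset ℤ} {x x' : ℤ} (hx : x ∈ X) (h : ∃ J, light p K X x J)
    (h' : ∃ J, light p K X x' J)
    (he : cls (p ^ fst p K X x) X x = cls (p ^ fst p K X x') X x') :
    fst p K X x = fst p K X x' ∧ ((p ^ fst p K X x : ℕ) : ℤ) ∣ x - x' := by
  have h1 : x ∈ cls (p ^ fst p K X x') X x' := by
    rw [← he]
    exact self_mem hx
  have h2 := (mem_cls.1 h1).2
  have h3 : fst p K X x = fst p K X x' := by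
    refine star2 h h' (dvd_trans ?_ h2)
    exact_mod_cast pow_dvd_pow p (min_le_right _ _)
  exact ⟨h3, by rw [h3]; exact h2⟩

/-- few disjoint heavy sets -/
theorem heavy_card {X : Finset ℤ} {K : ℕ} (𝒞 : Finset (Finset ℤ)) (h1 : ∀ c ∈ 𝒞, c ⊆ X)
    (h2 : ∀ c ∈ 𝒞, X.card ≤ c.card * K) (h3 : ∀ c ∈ 𝒞, ∀ c' ∈ 𝒞, c ≠ c' → Disjoint c c')
    (hX : X.Nonempty) : 𝒞.card ≤ K := by
  have h4 : (𝒞.biUnion id).card = ∑ c ∈ 𝒞, c.card :=
    Finset.card_biUnion (fun c hc c' hc' hne => h3 c hc c' hc' hne)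
  have h5 : (𝒞.biUnion id).card ≤ X.card := by
    refine Finset.card_le_card ?_
    rw [Finset.biUnion_subset]
    exact h1
  have h6 : 𝒞.card * X.card ≤ K * X.card := by
    calc 𝒞.card * X.card = ∑ _c ∈ 𝒞, X.card := by rw [Finset.sum_const, smul_eq_mul]
      _ ≤ ∑ c ∈ 𝒞, c.card * K := Finset.sum_le_sum h2
      _ = (𝒞.biUnion id).card * K := by rw [h4, Finset.sum_mul]
      _ ≤ X.card * K := Nat.mul_le_mul_right _ h5
      _ = K * X.card := mul_comm _ _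
  exact Nat.le_of_mul_le_mul_right h6 hX.card_pos

/-- classes modulo `Q` are equal or disjoint -/
theorem cls_disj {Q : ℕ} {X : Finset ℤ} {x x' : ℤ} (h : cls Q X x ≠ cls Q X x') :
    Disjoint (cls Q X x) (cls Q X x') := by
  rw [Finset.disjoint_left]
  intro z hz hz'
  apply h
  apply cls_congr
  have h1 := dvd_sub (mem_cls.1 hz').2 (mem_cls.1 hz).2
  rwa [sub_sub_sub_cancel_left] at h1

/-- first light classes are equal or disjoint -/
theorem fst_disj {p K : ℕ} {X : Finset ℤ} {x x' : ℤ} (h : ∃ J, light p K X x J)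
    (h' : ∃ J, light p K X x' J)
    (hne : cls (p ^ fst p K X x) X x ≠ cls (p ^ fst p K X x') X x') :
    Disjoint (cls (p ^ fst p K X x) X x) (cls (p ^ fst p K X x') X x') := by
  rw [Finset.disjoint_left]
  intro z hz hz'
  apply hne
  have h1 : ((p ^ min (fst p K X x) (fst p K X x') : ℕ) : ℤ) ∣ x - x' := by
    have h2 : ((p ^ min (fst p K X x) (fst p K X x') : ℕ) : ℤ) ∣ z - x := by
      refine dvd_trans ?_ (mem_cls.1 hz).2
      exact_mod_cast pow_dvd_pow p (min_le_left _ _)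
    have h3 : ((p ^ min (fst p K X x) (fst p K X x') : ℕ) : ℤ) ∣ z - x' := by
      refine dvd_trans ?_ (mem_cls.1 hz').2
      exact_mod_cast pow_dvd_pow p (min_le_right _ _)
    have h4 := dvd_sub h3 h2
    rwa [sub_sub_sub_cancel_left] at h4
  have h2 := star2 h h' h1
  rw [← h2, min_self] at h1
  rw [← h2]
  exact cls_congr h1

/-- the cells of the heavy points of type 0 -/
noncomputable def cells (P : Par) (p e : ℕ) (X B : Finset ℤ) : Finset (Finset ℤ × Finset ℤ) :=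
  ((X ×ˢ B).filter (fun q => H0 P p e X B q.1 q.2)).image (fun q => nxt0 P p e X B q.1 q.2)

theorem mem_cells {P : Par} {p e : ℕ} {X B : Finset ℤ} {c : Finset ℤ × Finset ℤ} :
    c ∈ cells P p e X B ↔ ∃ x ∈ X, ∃ b ∈ B, H0 P p e X B x b ∧ nxt0 P p e X B x b = c := by
  unfold cells
  simp only [Finset.mem_image, Finset.mem_filter, Finset.mem_product, Prod.exists]
  constructor
  · rintro ⟨x, b, ⟨⟨hx, hb⟩, hH⟩, h⟩
    exact ⟨x, hx, b, hb, hH, h⟩
  · rintro ⟨x, hx, b, hb, hH, h⟩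
    exact ⟨x, b, ⟨⟨hx, hb⟩, hH⟩, h⟩

theorem cells_card (P : Par) (p e : ℕ) (X B : Finset ℤ) :
    (cells P p e X B).card ≤ P.K1 * P.K2 := by
  have h1 : ((cells P p e X B).image Prod.fst).card ≤ P.K2 := by
    rcases X.eq_empty_or_nonempty with hX | hX
    · have : cells P p e X B = ∅ := by
        rw [Finset.eq_empty_iff_forall_notMem]
        intro c hc
        obtain ⟨x, hx, _⟩ := mem_cells.1 hc
        rw [hX] at hx
        exact absurd hx (Finset.notMem_empty x)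
      rw [this]
      simp
    · refine heavy_card (X := X) _ ?_ ?_ ?_ hX
      · intro c hc
        obtain ⟨d, hd, rfl⟩ := Finset.mem_image.1 hc
        obtain ⟨x, hx, b, hb, hH, rfl⟩ := mem_cells.1 hd
        exact cls_sub
      · intro c hc
        obtain ⟨d, hd, rfl⟩ := Finset.mem_image.1 hc
        obtain ⟨x, hx, b, hb, hH, rfl⟩ := mem_cells.1 hd
        exact not_lt.1 hH.2
      · intro c hc c' hc' hne
        obtain ⟨d, hd, rfl⟩ := Finset.mem_image.1 hc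
        obtain ⟨x, hx, b, hb, hH, rfl⟩ := mem_cells.1 hd
        obtain ⟨d', hd', rfl⟩ := Finset.mem_image.1 hc'
        obtain ⟨x', hx', b', hb', hH', rfl⟩ := mem_cells.1 hd'
        exact fst_disj hH.1.1 hH'.1.1 hne
  refine (Finset.card_le_mul_card_image (f := Prod.fst) (cells P p e X B) P.K1 ?_).trans
    (Nat.mul_le_mul_left _ h1)
  intro c hc
  obtain ⟨c0, hc0, rfl⟩ := Finset.mem_image.1 hc
  obtain ⟨x0, hx0, b0, hb0, hH0, rfl⟩ := mem_cells.1 hc0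
  have hinj : Set.InjOn Prod.snd (((cells P p e X B).filter
      (fun c => c.1 = (nxt0 P p e X B x0 b0).1) : Finset (Finset ℤ × Finset ℤ)) :
        Set (Finset ℤ × Finset ℤ)) := by
    intro c hc c' hc' h
    have h1 := (Finset.mem_filter.1 hc).2
    have h2 := (Finset.mem_filter.1 hc').2
    exact Prod.ext (h1.trans h2.symm) h
  rw [← Finset.card_image_of_injOn hinj]
  refine heavy_card (X := B) _ ?_ ?_ ?_ ⟨b0, hb0⟩
  · intro c hc
    obtain ⟨d, hd, rfl⟩ := Finset.mem_image.1 hc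
    obtain ⟨x, hx, b, hb, hH, rfl⟩ := mem_cells.1 (Finset.mem_filter.1 hd).1
    exact cls_sub
  · intro c hc
    obtain ⟨d, hd, rfl⟩ := Finset.mem_image.1 hc
    obtain ⟨x, hx, b, hb, hH, rfl⟩ := mem_cells.1 (Finset.mem_filter.1 hd).1
    exact not_lt.1 hH.1.2
  · intro c hc c' hc' hne
    obtain ⟨d, hd, rfl⟩ := Finset.mem_image.1 hc
    obtain ⟨x, hx, b, hb, hH, rfl⟩ := mem_cells.1 (Finset.mem_filter.1 hd).1
    obtain ⟨d', hd', rfl⟩ := Finset.mem_image.1 hc'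
    obtain ⟨x', hx', b', hb', hH', rfl⟩ := mem_cells.1 (Finset.mem_filter.1 hd').1
    have e1 := (cell_eq hx hH.1.1 hH0.1.1 (Finset.mem_filter.1 hd).2).1
    have e2 := (cell_eq hx' hH'.1.1 hH0.1.1 (Finset.mem_filter.1 hd').2).1
    simp only [nxt0, e1, e2] at hne ⊢
    exact cls_disj hne

/-- the same pair of cells: the dilations are congruent modulo `p` -/
theorem same_cells {P : Par} {p e u₁ u₂ : ℕ} {X B : Finset ℤ} (hp : p.Prime)
    {x₁ x₁' x₂ x₂' b₁ b₁' b₂ b₂' : ℤ} (hx₁ : x₁ ∈ X) (hx₁' : x₁' ∈ X) (hb₁ : b₁ ∈ B)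
    (hb₁' : b₁' ∈ B) (h₁ : H0 P p e X B x₁ b₁) (h₁' : H0 P p e X B x₁' b₁')
    (h₂ : H0 P p e X B x₂ b₂) (h₂' : H0 P p e X B x₂' b₂')
    (hl₁ : ((p ^ e * u₁ : ℕ) : ℤ) * x₁ + b₁ = ((p ^ e * u₁ : ℕ) : ℤ) * x₁' + b₁')
    (hl₂ : ((p ^ e * u₂ : ℕ) : ℤ) * x₂ + b₂ = ((p ^ e * u₂ : ℕ) : ℤ) * x₂' + b₂')
    (hne : nxt0 P p e X B x₁ b₁ ≠ nxt0 P p e X B x₁' b₁')
    (hc : nxt0 P p e X B x₁ b₁ = nxt0 P p e X B x₂ b₂)
    (hc' : nxt0 P p e X B x₁' b₁' = nxt0 P p e X B x₂' b₂') : u₁ % p = u₂ % p := by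
  by_contra hu
  apply hne
  obtain ⟨hj, hxd⟩ := cell_eq hx₁ h₁.1.1 h₂.1.1 (congrArg Prod.fst hc)
  obtain ⟨hj', hxd'⟩ := cell_eq hx₁' h₁'.1.1 h₂'.1.1 (congrArg Prod.fst hc')
  have hbd : ((p ^ (fst p P.K0 X x₁ + e) : ℕ) : ℤ) ∣ b₁ - b₂ := by
    have h1 : b₁ ∈ cls (p ^ (fst p P.K0 X x₂ + e)) B b₂ := by
      have h2 : cls (p ^ (fst p P.K0 X x₁ + e)) B b₁ = cls (p ^ (fst p P.K0 X x₂ + e)) B b₂ :=
        congrArg Prod.snd hc
      rw [← h2]
      exact self_mem hb₁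
    rw [hj]
    exact (mem_cls.1 h1).2
  have hbd' : ((p ^ (fst p P.K0 X x₁' + e) : ℕ) : ℤ) ∣ b₁' - b₂' := by
    have h1 : b₁' ∈ cls (p ^ (fst p P.K0 X x₂' + e)) B b₂' := by
      have h2 : cls (p ^ (fst p P.K0 X x₁' + e)) B b₁' =
          cls (p ^ (fst p P.K0 X x₂' + e)) B b₂' := congrArg Prod.snd hc'
      rw [← h2]
      exact self_mem hb₁'
    rw [hj']
    exact (mem_cls.1 h1).2
  set J := min (fst p P.K0 X x₁) (fst p P.K0 X x₁') with hJ
  have hpe : ((p : ℤ) ^ e) ≠ 0 := pow_ne_zero _ (by exact_mod_cast hp.ne_zero)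
  -- divisibilities by `p ^ J`
  have d1 : ((p : ℤ) ^ J) ∣ x₁ - x₂ := by
    refine dvd_trans ?_ hxd
    push_cast
    exact pow_dvd_pow _ (min_le_left _ _)
  have d2 : ((p : ℤ) ^ J) ∣ x₁' - x₂' := by
    refine dvd_trans ?_ hxd'
    push_cast
    exact pow_dvd_pow _ (min_le_right _ _)
  have d3 : ((p : ℤ) ^ (J + e)) ∣ b₁ - b₂ := by
    refine dvd_trans ?_ hbd
    push_cast
    exact pow_dvd_pow _ (Nat.add_le_add_right (min_le_left _ _) _)
  have d4 : ((p : ℤ) ^ (J + e)) ∣ b₁' - b₂' := by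
    refine dvd_trans ?_ hbd'
    push_cast
    exact pow_dvd_pow _ (Nat.add_le_add_right (min_le_right _ _) _)
  have d5 : ((p : ℤ) ^ e) * (p : ℤ) ^ J ∣
      (p : ℤ) ^ e * ((u₁ : ℤ) * (x₁ - x₁') - (u₂ : ℤ) * (x₂ - x₂')) := by
    have h1 : (p : ℤ) ^ e * ((u₁ : ℤ) * (x₁ - x₁') - (u₂ : ℤ) * (x₂ - x₂')) =
        (b₁' - b₂') - (b₁ - b₂) := by
      push_cast at hl₁ hl₂
      linear_combination hl₁ - hl₂
    rw [h1, mul_comm, ← pow_add]
    exact dvd_sub d4 d3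
  have d6 : (p : ℤ) ^ J ∣ (u₁ : ℤ) * (x₁ - x₁') - (u₂ : ℤ) * (x₂ - x₂') :=
    (mul_dvd_mul_iff_left hpe).1 d5
  have d7 : (p : ℤ) ^ J ∣ ((u₁ : ℤ) - u₂) * (x₁ - x₁') := by
    have h1 : ((u₁ : ℤ) - u₂) * (x₁ - x₁') = ((u₁ : ℤ) * (x₁ - x₁') - (u₂ : ℤ) * (x₂ - x₂')) -
        (u₂ : ℤ) * ((x₁ - x₂) - (x₁' - x₂')) := by ring
    rw [h1]
    exact dvd_sub d6 (Dvd.dvd.mul_left (dvd_sub d1 d2) _)
  have hcop : IsCoprime ((p : ℤ) ^ J) ((u₁ : ℤ) - u₂) := by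
    refine IsCoprime.pow_left ?_
    rw [Prime.coprime_iff_not_dvd (Nat.prime_iff_prime_int.1 hp)]
    intro h
    apply hu
    have := (Nat.modEq_iff_dvd (n := p) (a := u₂) (b := u₁)).2 h
    exact this.symm
  have d8 : ((p : ℤ) ^ J) ∣ x₁ - x₁' := hcop.dvd_of_dvd_mul_left d7
  have d9 : ((p ^ J : ℕ) : ℤ) ∣ x₁ - x₁' := by push_cast; exact d8
  have hjj := star2 h₁.1.1 h₁'.1.1 d9
  have hJ1 : J = fst p P.K0 X x₁ := by rw [hJ, ← hjj, min_self]
  have d10 : ((p ^ (fst p P.K0 X x₁ + e) : ℕ) : ℤ) ∣ b₁ - b₁' := by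
    have h1 : b₁ - b₁' = -((p : ℤ) ^ e * (u₁ : ℤ) * (x₁ - x₁')) := by
      push_cast at hl₁
      linear_combination hl₁
    rw [h1, dvd_neg, ← hJ1]
    push_cast
    rw [pow_add, mul_comm ((p : ℤ) ^ J), mul_assoc]
    exact mul_dvd_mul_left _ (Dvd.dvd.mul_left d8 _)
  unfold nxt0
  rw [← hjj, cls_congr (show ((p ^ fst p P.K0 X x₁ : ℕ) : ℤ) ∣ x₁ - x₁' by rw [← hJ1]; exact d9),
    cls_congr d10]

/-- Package D1. -/
theorem p_D1 : S_D1 := by
  intro P p e X B _ _ hp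
  set Z : Finset ℕ := (Finset.range p).filter
    (fun r => ∃ u : ℕ, ¬ p ∣ u ∧ ¬ Gen P p e (p ^ e * u) X B ∧ u % p = r) with hZ
  refine ⟨Z, ?_, ?_⟩
  · have hw : ∀ r ∈ Z, ∃ c : (Finset ℤ × Finset ℤ) × (Finset ℤ × Finset ℤ),
        ∃ (u : ℕ) (x x' b b' : ℤ), u % p = r ∧ x ∈ X ∧ x' ∈ X ∧ b ∈ B ∧ b' ∈ B ∧
          H0 P p e X B x b ∧ H0 P p e X B x' b' ∧
          ((p ^ e * u : ℕ) : ℤ) * x + b = ((p ^ e * u : ℕ) : ℤ) * x' + b' ∧
          nxt0 P p e X B x b ≠ nxt0 P p e X B x' b' ∧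
          c = (nxt0 P p e X B x b, nxt0 P p e X B x' b') := by
      intro r hr
      obtain ⟨u, _, hG, hur⟩ := (Finset.mem_filter.1 hr).2
      unfold Gen at hG
      push Not at hG
      obtain ⟨x, hx, b, hb, x', hx', b', hb', h1, h2, h3, h4⟩ := hG
      exact ⟨_, u, x, x', b, b', hur, hx, hx', hb, hb', h1, h2, h3, h4, rfl⟩
    choose! w hw using hw
    have h1 : Z.card ≤ (cells P p e X B ×ˢ cells P p e X B).card := by
      refine Finset.card_le_card_of_injOn w ?_ ?_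
      · intro r hr
        obtain ⟨u, x, x', b, b', hur, hx, hx', hb, hb', h1, h2, h3, h4, h5⟩ := hw r hr
        rw [h5]
        simp only [Finset.coe_product, Set.mem_prod, Finset.mem_coe]
        exact ⟨mem_cells.2 ⟨x, hx, b, hb, h1, rfl⟩, mem_cells.2 ⟨x', hx', b', hb', h2, rfl⟩⟩
      · intro r hr r' hr' hrr
        obtain ⟨u, x, x', b, b', hur, hx, hx', hb, hb', h1, h2, h3, h4, h5⟩ := hw r hr
        obtain ⟨v, y, y', c, c', hvr, hy, hy', hc, hc', g1, g2, g3, g4, g5⟩ := hw r' hr'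
        rw [h5, g5] at hrr
        rw [← hur, ← hvr]
        exact same_cells hp hx hx' hb hb' h1 h2 g1 g2 h3 g3 h4 (congrArg Prod.fst hrr)
          (congrArg Prod.snd hrr)
    rw [Finset.card_product] at h1
    have h2 := cells_card P p e X B
    calc Z.card ≤ (cells P p e X B).card * (cells P p e X B).card := h1
      _ ≤ (P.K1 * P.K2) * (P.K1 * P.K2) := Nat.mul_le_mul h2 h2
      _ = (P.K1 * P.K2) ^ 2 := (sq _).symm
  · intro u hpu hG
    exact Finset.mem_filter.2 ⟨Finset.mem_range.2 (Nat.mod_lt _ hp.pos), u, hpu, hG, rfl⟩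

end Pool.Agent.Helper13.RD
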