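import Pool.Agent.Helper13.RD.PD1

/-! # Project RD, package D2 -/

set_option autoImplicit false

namespace Pool.Agent.Helper13.RD

open Pool.Agent.Helper5.RD Finset Classical

/-- Package D2. -/
theorem p_D2 (hD1 : S_D1) : S_D2 := by
  intro P hK1 hK2 ps
  induction ps with
  | nil =>
    intro _ _ l C x b
    exact ⟨fun _ => ∅, fun _ => by simp, fun s _ _ => by simp [bads]⟩
  | cons p ps ih =>
    intro hnd hpr l C x b
    have hp : p.Prime := hpr p (by simp)
    rcases l with _ | ⟨e, l⟩
    · exact ⟨fun _ => ∅, fun _ => by simp, fun s _ _ => by simp [bads]⟩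
    obtain ⟨Z1, hZ1, h1⟩ := hD1 P p e C.1 C.2 hK1 hK2 hp
    obtain ⟨Z2, hZ2, h2⟩ := ih (List.nodup_cons.1 hnd).2 (fun q hq => hpr q (by simp [hq])) l
      (stp P p e C x b) x b
    refine ⟨fun q => if q = p then Z1 else Z2 q, fun q => ?_, fun s hs hmap => ?_⟩
    · dsimp only
      split_ifs
      · exact hZ1
      · exact hZ2 q
    · rw [List.map_cons, List.cons.injEq] at hmap
      obtain ⟨he, hl⟩ := hmap
      have h3 := h2 s hs hl
      have h4 : (ps.toFinset.filter (fun q => (s / q ^ s.factorization q) % q ∈ Z2 q)).card =
          (ps.toFinset.filter (fun q => (s / q ^ s.factorization q) % q ∈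
            if q = p then Z1 else Z2 q)).card := by
        congr 1
        refine Finset.filter_congr fun q hq => ?_
        rw [if_neg]
        rintro rfl
        exact (List.nodup_cons.1 hnd).1 (List.mem_toFinset.1 hq)
      have hnot : p ∉ ps.toFinset.filter (fun q => (s / q ^ s.factorization q) % q ∈
            if q = p then Z1 else Z2 q) := fun h =>
        (List.nodup_cons.1 hnd).1 (List.mem_toFinset.1 (Finset.mem_filter.1 h).1)
      rw [List.zip_cons_cons, bads, List.toFinset_cons, Finset.filter_insert]
      by_cases hb : H0 P p e C.1 C.2 x b ∧ ¬ Gen P p e s C.1 C.2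
      · have h5 : s = p ^ e * (s / p ^ s.factorization p) := by
          rw [← he]
          exact (Nat.ordProj_mul_ordCompl_eq_self s p).symm
        have h6 : (s / p ^ s.factorization p) % p ∈ Z1 := by
          refine h1 _ (Nat.not_dvd_ordCompl hp hs) ?_
          rw [← h5]
          exact hb.2
        rw [if_pos hb, if_pos (by dsimp only; rw [if_pos rfl]; exact h6),
          Finset.card_insert_of_notMem hnot, add_comm, ← h4]
        exact Nat.add_le_add_right h3 1
      · rw [if_neg hb, zero_add]
        refine h3.trans ?_
        rw [h4]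
        split_ifs
        · exact Finset.card_le_card (Finset.subset_insert _ _)
        · exact le_rfl

end Pool.Agent.Helper13.RD
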